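import Pool.Agent.H53.GX.Targets
import Pool.Agent.H35.GM.LIM

/-!
# Forbidden coloured patterns, no precolouring: (LIMX) the limit of the Olsak families
-/

set_option autoImplicit false
set_option linter.unusedVariables false

namespace Pool.Agent.H40.GX

open Pool.Agent.H68.BP Pool.Agent.H58.SF Pool.Agent.H53.GC Pool.Agent.H53.GR Pool.Agent.H53.GM
open Pool.Agent.H68.GC
open Pool.Agent.H53.GX (RX FmX tmX)
open Pool.Agent.H35.GM.LIM (psh psh_rs rs_rse srt Gop Gop_pat oo oo_mk oo_pat ext ext_mono hasP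
  col_iff ar_pos)
open Classical

variable {τ σ : Sig} {N : ℕ}

theorem label (F : Set (Str τ (Fin N))) (Al : Fin σ.m → Fin τ.m → Prop) {k : ℕ}
    (s : Option (Fin σ.m)) (z : Fin (arP σ N s) → Fin k) :
    ∃ l : Option (Σ l : Fin σ.m, (Fin (σ.ar l) → Fin k)), ∀ p : So N k → Ty τ N (Fin k),
      RX F Al k l p ↔ ∃ P, Rl F P ∧ hasP Al s z P ∧ ∀ e : So N k, p e = rse e.1 P := by
  rcases s with _ | l
  · refine ⟨none, fun p => ?_⟩
    constructor
    · rintro ⟨P, h1, h2⟩
      exact ⟨P, h1, trivial, h2⟩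
    · rintro ⟨P, h1, -, h2⟩
      exact ⟨P, h1, h2⟩
  · exact ⟨some ⟨l, z⟩, fun p => Iff.rfl⟩

theorem pf_LIMX (hATM : Pool.Agent.H53.GM.T_ATM) (hTPB : Pool.Agent.H53.GM.T_TPB) :
    Pool.Agent.H53.GX.T_LIMX := by
  intro τ σ N F Al hyp hFam
  have hN : 1 ≤ N := hyp.pos
  obtain ⟨b, hb⟩ : ∃ b : ℕ, ∀ s, arP σ N s ≤ b := by
    obtain ⟨b, hb⟩ := (Set.finite_range (arP σ N)).bddAbove
    exact ⟨b, fun s => hb ⟨s, rfl⟩⟩
  have hfin : ∀ j : Fin N, Finite (Ty τ N (Fin (j + 1))) := fun j => finite_ty τ N _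
  obtain ⟨k, hk⟩ := Pool.Agent.H56.NR.pf_RSS N (b + N)
    ((j : Fin N) → (Fin 6 → Ty τ N (Fin (j + 1))) → Ty τ N (Fin (j + 1)))
  have hk1 : 1 ≤ k := by
    rcases Nat.eq_zero_or_pos k with h0 | h0
    · exfalso
      subst h0
      obtain ⟨β, -, -⟩ := hk fun z => (z ⟨0, hN⟩).elim0
      exact (β ⟨0, by omega⟩).elim0
    · exact h0
  obtain ⟨G, hG, hGp⟩ := hFam k hk1
  have hj : ∀ j : Fin N, (j : ℕ) + 1 ≤ N := fun j => j.2
  obtain ⟨β, hβ, hχ⟩ := hk fun z j =>
    Gop G (hj j) (fun i => z (Fin.castLE (hj j) i))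
  -- the operation
  let g : (j : Fin N) → (Fin 6 → Ty τ N (Fin (j + 1))) → Ty τ N (Fin (j + 1)) := fun j =>
    Gop G (hj j) (fun i => β (Fin.natAdd b (Fin.castLE (hj j) i)))
  have hg : ∀ (j : Fin N) (f : Fin (j + 1) → Fin b), StrictMono f →
      g j = Gop G (hj j) (fun i => β (Fin.castAdd N (f i))) := by
    intro j f hf
    have h1 := hχ (fun i => Fin.natAdd b i) (ext f) (Fin.strictMono_natAdd b) (ext_mono f hf)
    have h2 := congrFun h1 j
    refine h2.trans ?_
    congr 1
    funext i
    change β (ext f (Fin.castLE (hj j) i)) = _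
    congr 1
    unfold ext
    rw [dif_pos (show ((Fin.castLE (hj j) i : Fin N) : ℕ) < j + 1 from i.2)]
    rfl
  refine ⟨oo hN g, ?_, ?_⟩
  · unfold tmX
    rw [poly_strOn]
    rintro ⟨s, t⟩ q hq
    choose Wc hWc Mc xx hVal hcol hxt hxq using hq
    dsimp only at hVal hcol hxt hxq xx ⊢
    -- the vertices
    let γ : Fin (arP σ N s) → Fin k := fun a => β (Fin.castAdd N (Fin.castLE (hb s) a))
    have hγ : StrictMono γ := fun a a' h => hβ (by
      have h' : (a : ℕ) < a' := h
      rw [Fin.lt_def]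
      exact h')
    have hpos : 0 < arP σ N s := ar_pos hyp Al s (Mc 0) (xx 0) (hcol 0)
    let y : (c : Fin 6) → Fin k → Wc c := fun c i =>
      if h : ∃ a, γ (t a) = i then xx c h.choose else xx c ⟨0, hpos⟩
    have hy : ∀ c a, y c (γ (t a)) = xx c a := by
      intro c a
      have h : ∃ a', γ (t a') = γ (t a) := ⟨a, rfl⟩
      change (if h : ∃ a', γ (t a') = γ (t a) then xx c h.choose else xx c ⟨0, hpos⟩) = _
      rw [dif_pos h]
      exact hxt c _ _ (hγ.injective h.choose_spec)
    let P : Fin 6 → Ty τ N (Fin k) := fun c => tp N (Mc c) (y c)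
    have hPm : ∀ c, Rl F (P c) := fun c => ⟨Wc c, hWc c, Mc c, y c, hVal c, rfl⟩
    obtain ⟨lb, hlb⟩ := label F Al s (fun a => γ (t a))
    have hp := hG lb (fun c e => rse e.1 (P c)) (fun c => by
      rw [hlb]
      refine ⟨P c, hPm c, ?_, fun e => rfl⟩
      refine (col_iff hATM hyp Al s _ (Mc c) (y c)).2 ?_
      have h1 : (fun a => y c (γ (t a))) = xx c := funext (hy c)
      rw [h1]
      exact hcol c)
    rw [hlb] at hp
    obtain ⟨Q, hQm, hQh, hQe⟩ := hp
    obtain ⟨W', hW', M', y', hV', rfl⟩ := hQm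
    refine ⟨W', hW', M', fun a => y' (γ (t a)), hV', (col_iff hATM hyp Al s _ M' y').1 hQh, ?_, ?_⟩
    · intro a a' h
      dsimp only
      rw [h]
    · intro j α hα
      have hen : Function.Injective (fun i => γ (t (α i))) := fun i i' h =>
        hα.injective (hγ.injective h)
      have hT : tp N M' (fun i => y' (γ (t (α i)))) = rs (fun i => γ (t (α i))) (tp N M' y') :=
        (hTPB τ N W' W' (Fin k) (Fin (j + 1)) M' M' y').2.1 _
      · have h1 : (fun c => q c ⟨j, α⟩) = fun c => ⟨j, tp N (Mc c) (fun i => xx c (α i))⟩ :=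
          funext fun c => hxq c j α hα
        change oo hN g (fun c => q c ⟨j, α⟩) = _
        rw [h1, oo_mk]
        have hmono : StrictMono (fun i => Fin.castLE (hb s) (t (α i))) := by
          intro i i' h
          have h' := hα h
          exact h'
        rw [hg j (fun i => Fin.castLE (hb s) (t (α i))) hmono]
        -- the types of the six tuples are restrictions of the types `P c`
        have h5 : ∀ c, rs (fun i => γ (t (α i))) (P c) = tp N (Mc c) (fun i => xx c (α i)) := by
          intro c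
          have h6 : tp N (Mc c) (fun i => xx c (α i)) =
              rs (fun i => γ (t (α i))) (tp N (Mc c) (y c)) := by
            rw [← (hTPB τ N (Wc c) (Wc c) (Fin k) (Fin (j + 1)) (Mc c) (Mc c) (y c)).2.1
              (fun i => γ (t (α i)))]
            congr 1
            funext i
            exact (hy c (α i)).symm
          exact h6.symm
        have h3 : Gop G (hj j) (fun i => γ (t (α i)))
            (fun c => tp N (Mc c) (fun i => xx c (α i))) =
              tp N M' (fun i => y' (γ (t (α i)))) := by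
          unfold Gop
          have h7 : (fun c => psh (fun i => γ (t (α i))) (tp N (Mc c) (fun i => xx c (α i)))) =
              fun c => rse (srt (hj j) (fun i => γ (t (α i)))).1 (P c) := by
            funext c
            rw [← h5 c]
            exact psh_rs _ hen (P c)
          rw [h7]
          have h4 := hQe (srt (hj j) (fun i => γ (t (α i))))
          rw [h4, hT]
          exact rs_rse _ _
        exact congrArg (fun u => (⟨j, u⟩ : DmG τ N)) h3
  · intro x y
    have h := oo_pat hN g (fun j x y r => Gop_pat hGp (hj j) _ x y r) x y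
    exact ⟨(h 1).symm, (h 1).trans (h 2).symm⟩

end Pool.Agent.H40.GX
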